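import Pool.Agent.Helper55.FR.GoalsA

/-!
# Packet FR-GEX
-/

namespace Pool.Agent.Helper22.FR

open Finset Pool.Agent.Helper55.FR

theorem flip_flip (a : Lab) : Pool.Agent.Helper55.FR.flip (Pool.Agent.Helper55.FR.flip a) = a := by
  cases a <;> rfl

theorem flip_ne_O {a : Lab} (h : a ≠ Lab.O) : Pool.Agent.Helper55.FR.flip a ≠ Lab.O := by
  cases a <;> simp_all [Pool.Agent.Helper55.FR.flip]

theorem dif_eq {V : Type} [Fintype V] [DecidableEq V] {T I : Finset V} {Q : Finset (Finset V)}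
    {f ρ : V → Lab} (hf : Fit T I Q f) (hρ : ∀ x, ρ x ≠ Lab.O) : Dif ρ f = DifT ρ T I := by
  ext x
  have h1 := hf.fT x
  have h2 := hf.fI x
  have h3 := hρ x
  unfold Dif DifT
  rw [mem_filter, mem_filter]
  simp only [mem_univ, true_and]
  cases hx : ρ x with
  | T => simp [isK, h1.symm]
  | I => simp [isK, h2.symm]
  | K => simp [isK]
  | L => simp [isK]
  | O => exact absurd hx h3

theorem gex (hunb : UnbStmt) (hglon : GlonStmt) (href : RefStmt) (hdif : DifStmt) : GexStmt := by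
  intro V _ _ n m h g f0 B hC hh hh1 hg hE hG0 hmin hB hbar hbig
  classical
  have hex : ∃ k, ∃ (T I : Finset V) (Q : Finset (Finset V)) (ρ : V → Lab),
      Bar n m B g T I Q ∧ (ρ = f0 ∨ ρ = Pool.Agent.Helper55.FR.flip ∘ f0) ∧
        (DifT ρ T I).card = k := by
    obtain ⟨T, I, Q, hb⟩ := hbar
    exact ⟨_, T, I, Q, f0, hb, Or.inl rfl, rfl⟩
  obtain ⟨T, I, Q, ρ, hb, hρ, hk⟩ := Nat.find_spec hex
  have hmin' : ∀ (T' I' : Finset V) (Q' : Finset (Finset V)) (ρ' : V → Lab),
      Bar n m B g T' I' Q' → (ρ' = f0 ∨ ρ' = Pool.Agent.Helper55.FR.flip ∘ f0) →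
        (DifT ρ T I).card ≤ (DifT ρ' T' I').card := by
    intro T' I' Q' ρ' hb' hρ'
    rw [hk]
    exact Nat.find_min' hex ⟨T', I', Q', ρ', hb', hρ', rfl⟩
  have hO : ∀ x, ρ x ≠ Lab.O := by
    rcases hρ with rfl | rfl
    · exact hG0.noO
    · exact fun x => flip_ne_O (hG0.noO x)
  have hρ2 : Pool.Agent.Helper55.FR.flip ∘ ρ = f0 ∨
      Pool.Agent.Helper55.FR.flip ∘ ρ = Pool.Agent.Helper55.FR.flip ∘ f0 := by
    rcases hρ with rfl | rfl
    · exact Or.inr rfl
    · left
      funext x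
      exact flip_flip _
  have hO2 : ∀ x, (Pool.Agent.Helper55.FR.flip ∘ ρ) x ≠ Lab.O := fun x => flip_ne_O (hO x)
  obtain ⟨f, hfit, hglo, hdis⟩ := hglon V n m h g B T I Q hC hh hh1 hg hE hB hb (hbig T I Q hb)
  have e1 := dif_eq hfit hO
  have e2 := dif_eq hfit hO2
  refine ⟨f, ρ, hρ, hglo, hdis, ?_, ?_⟩
  · rw [e1]
    intro S hS hne hcl
    by_contra hcon
    push Not at hcon
    have hdisj : Disjoint S (Zs n m ρ) := by
      rw [Finset.disjoint_left]
      exact hcon
    obtain ⟨hb', he⟩ := hunb V n m B g T I Q ρ S hC hB hb hO hS hcl hdisj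
    have h1 := hmin' _ _ _ ρ hb' hρ
    rw [he] at h1
    have h2 : (DifT ρ T I \ S).card < (DifT ρ T I).card := by
      apply Finset.card_lt_card
      refine Finset.ssubset_iff_subset_ne.2 ⟨Finset.sdiff_subset, ?_⟩
      intro heq
      obtain ⟨x, hx⟩ := hne
      have h3 := hS hx
      rw [← heq] at h3
      exact (Finset.mem_sdiff.1 h3).2 hx
    omega
  · have hR : Ref n m h g (Bad m f0).card ρ := by
      have := href V n m h g f0 hG0
      rcases hρ with rfl | rfl
      · exact this.1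
      · exact this.2
    have hle := hmin f hglo
    rcases hdif V n m h g (Bad m f0).card f ρ hC hh hh1 hg hE hglo hR hle with h1 | h1
    · exact h1
    · have h2 : (Dif ρ f).card ≤ (Dif (Pool.Agent.Helper55.FR.flip ∘ ρ) f).card := by
        rw [e1, e2]
        exact hmin' T I Q _ hb hρ2
      have h3 : ((Dif ρ f).card : ℝ) ≤ ((Dif (Pool.Agent.Helper55.FR.flip ∘ ρ) f).card : ℝ) := by
        exact_mod_cast h2
      nlinarith [mul_le_mul_of_nonneg_left h3 hh.le]

end Pool.Agent.Helper22.FR
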