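import Pool.Agent.Helper92.FR.GoalsC

/-!
# Few rows in a box: the elimination is computed in polynomial time
-/

namespace Pool.Agent.Helper22.FR

open Pool.Agent.Helper81.CC Pool.Agent.Bin Pool.Agent.Helper92.VP Pool.Agent.Helper92.FR

/-- A matrix with at most `S` rows of length at most `S`, all entries of height at most `B`. -/
def Mb (S B : ℕ) (M : List (List Qn)) : Prop :=
  M.length ≤ S ∧ ∀ r ∈ M, r.length ≤ S ∧ ∀ x ∈ r, Qn.mu x ≤ B

theorem getD_row {S B : ℕ} {M : List (List Qn)} (h : Mb S B M) (i : ℕ) :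
    (M.getD i []).length ≤ S ∧ ∀ x ∈ M.getD i [], Qn.mu x ≤ B := by
  rcases lt_or_ge i M.length with hi | hi
  · rw [List.getD_eq_getElem _ _ hi]
    exact h.2 _ (List.getElem_mem hi)
  · rw [List.getD_eq_default _ _ hi]
    simp

theorem getD_ent {B : ℕ} (hB : 1 ≤ B) {r : List Qn} (h : ∀ x ∈ r, Qn.mu x ≤ B) (i : ℕ) :
    Qn.mu (r.getD i Qn.zero) ≤ B := by
  rcases lt_or_ge i r.length with hi | hi
  · rw [List.getD_eq_getElem _ _ hi]
    exact h _ (List.getElem_mem hi)
  · rw [List.getD_eq_default _ _ hi]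
    have : Qn.mu Qn.zero = 1 := rfl
    omega

theorem rowsub_bd {S B : ℕ} {f : Qn} (hf : Qn.mu f ≤ B * B) {x y : List Qn}
    (hx : x.length ≤ S ∧ ∀ u ∈ x, Qn.mu u ≤ B) (hy : y.length ≤ S ∧ ∀ u ∈ y, Qn.mu u ≤ B) :
    (rowsub f x y).length ≤ S ∧ ∀ u ∈ rowsub f x y, Qn.mu u ≤ B ^ 4 := by
  constructor
  · unfold rowsub
    rw [List.length_zipWith]
    exact (min_le_left _ _).trans hx.1
  · intro u hu
    unfold rowsub at hu
    obtain ⟨i, hi, rfl⟩ := List.mem_iff_getElem.1 hu
    rw [List.getElem_zipWith]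
    rw [List.length_zipWith] at hi
    have h1 := hx.2 _ (List.getElem_mem (l := x) (n := i) (by omega))
    have h2 := hy.2 _ (List.getElem_mem (l := y) (n := i) (by omega))
    refine (Qn.mu_sub _ _).trans ?_
    calc _ ≤ B * (B * B * B) := Nat.mul_le_mul h1 ((Qn.mu_mul _ _).trans (Nat.mul_le_mul hf h2))
      _ = B ^ 4 := by ring

theorem step_row {S B : ℕ} (hB : 1 ≤ B) {M M' : List (List Qn)} (h : Mb S B M) (h' : Mb S B M')
    (i r : ℕ) (row : List Qn) (hr : row = if i < r then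
      rowsub (Qn.mul ((M.getD r []).getD i Qn.zero)
        (Qn.inv ((M.getD i []).getD i Qn.zero))) (M'.getD r []) (M'.getD i [])
    else M'.getD r []) : row.length ≤ S ∧ ∀ x ∈ row, Qn.mu x ≤ B ^ 4 := by
  have hBB : B ≤ B ^ 4 := Nat.le_self_pow (by norm_num) B
  subst hr
  split_ifs with hir
  · refine rowsub_bd ?_ (getD_row h' r) (getD_row h' i)
    refine (Qn.mu_mul _ _).trans (Nat.mul_le_mul (getD_ent hB (getD_row h r).2 i) ?_)
    exact (Qn.mu_inv _).trans (getD_ent hB (getD_row h i).2 i)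
  · exact ⟨(getD_row h' r).1, fun x hx => ((getD_row h' r).2 x hx).trans hBB⟩

theorem step_bd {S B : ℕ} (hB : 1 ≤ B) {st : List (List Qn) × List (List Qn)}
    (h1 : Mb S B st.1) (h2 : Mb S B st.2) (i : ℕ) :
    Mb S (B ^ 4) (elimStep st i).1 ∧ Mb S (B ^ 4) (elimStep st i).2 := by
  unfold elimStep
  constructor
  · refine ⟨by simpa using h1.1, ?_⟩
    intro row hrow
    obtain ⟨r, -, hr⟩ := List.mem_map.1 hrow
    exact step_row hB h1 h1 i r row hr.symm
  · refine ⟨by simpa using h1.1, ?_⟩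
    intro row hrow
    obtain ⟨r, -, hr⟩ := List.mem_map.1 hrow
    exact step_row hB h1 h2 i r row hr.symm

theorem fold_bd {S : ℕ} : ∀ (l : List ℕ) {B : ℕ}, 1 ≤ B →
    ∀ {st : List (List Qn) × List (List Qn)}, Mb S B st.1 → Mb S B st.2 →
    Mb S (B ^ 4 ^ l.length) (l.foldl elimStep st).1 ∧
      Mb S (B ^ 4 ^ l.length) (l.foldl elimStep st).2
  | [], B, _, st, h1, h2 => by simpa using ⟨h1, h2⟩
  | i :: l, B, hB, st, h1, h2 => by
    have h3 := step_bd hB h1 h2 i
    have h4 := fold_bd l (Nat.one_le_pow _ _ hB) h3.1 h3.2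
    have e : (B ^ 4) ^ 4 ^ l.length = B ^ 4 ^ (i :: l).length := by
      rw [← pow_mul, List.length_cons, pow_succ, mul_comm]
    rw [e] at h4
    exact h4

theorem sz_list {α : Type} [ToData α] {E : ℕ} : ∀ {l : List α}, (∀ x ∈ l, sz x ≤ E) →
    sz l ≤ l.length * (E + 1) + 1
  | [], _ => by simp
  | x :: l, h => by
    have h1 := sz_list (l := l) (fun y hy => h y (by simp [hy]))
    have h2 := h x (by simp)
    rw [sz_cons, List.length_cons]
    have : (l.length + 1) * (E + 1) = l.length * (E + 1) + (E + 1) := by ring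
    omega

theorem sz_mat {S Z : ℕ} {M : List (List Qn)} (h : Mb S (2 ^ Z) M) :
    sz M ≤ S * (S * (12 * Z + 5 + 1) + 1 + 1) + 1 := by
  have h1 : ∀ r ∈ M, sz r ≤ S * (12 * Z + 5 + 1) + 1 := by
    intro r hr
    refine (sz_list (E := 12 * Z + 5) fun x hx => Qn.sz_le ((h.2 r hr).2 x hx)).trans ?_
    exact Nat.add_le_add_right (Nat.mul_le_mul_right _ (h.2 r hr).1) 1
  refine (sz_list h1).trans ?_
  exact Nat.add_le_add_right (Nat.mul_le_mul_right _ h.1) 1

theorem mb_A (A : List (List Qn)) : Mb (sz A) (2 ^ (sz A + 2)) A := by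
  refine ⟨length_le_sz A, fun r hr => ⟨(length_le_sz r).trans (sz_le_of_mem hr), fun x hx => ?_⟩⟩
  refine (Qn.mu_le x).trans (Nat.pow_le_pow_right (by norm_num) ?_)
  have h1 := sz_le_of_mem hx
  have h2 := sz_le_of_mem hr
  omega

theorem mb_I (A : List (List Qn)) : Mb (sz A) (2 ^ (sz A + 2)) (idM A.length) := by
  have hl := length_le_sz A
  unfold idM
  refine ⟨by simpa using hl, fun r hr => ?_⟩
  obtain ⟨i, -, rfl⟩ := List.mem_map.1 hr
  refine ⟨by simpa using hl, fun x hx => ?_⟩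
  obtain ⟨i', -, rfl⟩ := List.mem_map.1 hx
  have h2 : 2 ^ 2 ≤ 2 ^ (sz A + 2) := Nat.pow_le_pow_right (by norm_num) (by omega)
  split_ifs
  · have : Qn.mu Qn.one = 2 := rfl
    omega
  · have : Qn.mu Qn.zero = 1 := rfl
    omega

theorem pt_step {α : Type} [ToData α] {st : α → List (List Qn) × List (List Qn)} {i : α → ℕ}
    (hst : PolyTime st) (hi : PolyTime i) : PolyTime (fun a => elimStep (st a) (i a)) := by
  unfold elimStep rowsub Qn.zero
  fun_prop

theorem pte : PteStmt := by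
  intro α _ A m W hA hm hW h4
  unfold elim
  have hI : PolyTime (fun a => idM (A a).length) := by
    unfold idM Qn.zero Qn.one
    fun_prop
  refine PolyTime.foldl_bd (l := fun a => List.range (m a))
    (s0 := fun a => (A a, idM (A a).length)) (step := fun _ st i => elimStep st i)
    (by fun_prop) (PolyTime.pair hA hI) (pt_step (by fun_prop) (by fun_prop))
    (B := fun a => (sz (A a) * (sz (A a) * (12 * (W a * (sz (A a) + 2)) + 5 + 1) + 1 + 1) + 1) +
      (sz (A a) * (sz (A a) * (12 * (W a * (sz (A a) + 2)) + 5 + 1) + 1 + 1) + 1) + 1) ?_ ?_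
  · have hs : PBd (fun a => sz (A a)) := hA.bd
    have hw : PBd W := PBd.nat hW
    have c1 : PBd (fun _ : α => 1) := PBd.const 1
    have c2 : PBd (fun _ : α => 2) := PBd.const 2
    have c5 : PBd (fun _ : α => 5) := PBd.const 5
    have c12 : PBd (fun _ : α => 12) := PBd.const 12
    have hm1 := (hs.mul (((hs.mul (((c12.mul (hw.mul (hs.add c2))).add c5).add c1)).add c1).add
      c1)).add c1
    exact (hm1.add hm1).add c1
  · intro a l' hl'
    have h1 := fold_bd l' (B := 2 ^ (sz (A a) + 2)) (Nat.one_le_pow _ _ (by norm_num))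
      (st := (A a, idM (A a).length)) (mb_A (A a)) (mb_I (A a))
    have hk : 4 ^ l'.length ≤ W a := by
      refine le_trans (Nat.pow_le_pow_right (by norm_num) ?_) (h4 a)
      simpa using hl'.length_le
    have e : (2 ^ (sz (A a) + 2)) ^ 4 ^ l'.length = 2 ^ ((sz (A a) + 2) * 4 ^ l'.length) := by
      rw [← pow_mul]
    rw [e] at h1
    have hmono : ∀ {M : List (List Qn)}, Mb (sz (A a)) (2 ^ ((sz (A a) + 2) * 4 ^ l'.length)) M →
        Mb (sz (A a)) (2 ^ (W a * (sz (A a) + 2))) M := by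
      intro M hM
      refine ⟨hM.1, fun r hr => ⟨(hM.2 r hr).1, fun x hx => ((hM.2 r hr).2 x hx).trans ?_⟩⟩
      refine Nat.pow_le_pow_right (by norm_num) ?_
      rw [mul_comm]
      exact Nat.mul_le_mul_right _ hk
    have g1 := sz_mat (hmono h1.1)
    have g2 := sz_mat (hmono h1.2)
    have e3 : sz (List.foldl elimStep (A a, idM (A a).length) l') =
        sz (List.foldl elimStep (A a, idM (A a).length) l').1 +
          sz (List.foldl elimStep (A a, idM (A a).length) l').2 + 1 := by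
      rw [← sz_pair]
    show sz (List.foldl elimStep (A a, idM (A a).length) l') ≤ _
    rw [e3]
    omega

end Pool.Agent.Helper22.FR
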